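import Mathlib

set_option autoImplicit false

namespace Pool.Agent.Results.MP_8a6e71_co.Q1

open Finset

variable {n : ℕ}

/-- Boolean networks -/
abbrev BN (n : ℕ) : Type := (Fin n → Bool) → Fin n → Bool

/-- arc from `j` to `i` of the interaction graph, negative when `s` is true -/
def Arc (f : BN n) (s : Bool) (j i : Fin n) : Prop :=
  ∃ x, f (Function.update x j false) i = s ∧ f (Function.update x j true) i = !s

/-- a signed cycle with vertices `v t` and arc signs `s t` -/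
def Cyc (f : BN n) {m : ℕ} (v : Fin (m + 1) → Fin n) (s : Fin (m + 1) → Bool) : Prop :=
  Function.Injective v ∧ ∀ t, Arc f (s t) (v t) (v (t + 1))

/-- trap set of the asynchronous graph -/
def Trap (f : BN n) (X : Set (Fin n → Bool)) : Prop :=
  ∀ x ∈ X, ∀ i, x i ≠ f x i → Function.update x i (!x i) ∈ X

/-- attractor -/
def Attr (f : BN n) (A : Set (Fin n → Bool)) : Prop :=
  Minimal (fun X => X.Nonempty ∧ Trap f X) A

/-- smallest subspace containing `X` -/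
def span (X : Set (Fin n → Bool)) : Set (Fin n → Bool) :=
  {y | ∀ (I : Set (Fin n)) (c : Fin n → Bool), (∀ x ∈ X, ∀ i ∈ I, x i = c i) → ∀ i ∈ I, y i = c i}

/-- non-separating asynchronous graph -/
def NonSep (f : BN n) : Prop :=
  ∃ A B, Attr f A ∧ Attr f B ∧ A ≠ B ∧ (span A ∩ span B).Nonempty

/-- the network -/
def F : BN 5 := fun x => ![x 2 ^^ x 3, if x 4 then !(x 0 && x 2) else x 0 || x 2, x 1 ^^ x 4,
  x 1 ^^ x 2, if x 3 then !(x 0 && x 1) else x 0 || x 1]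

/-- binary code -/
def enc (x : Fin 5 → Bool) : ℕ :=
  (x 0).toNat + 2 * (x 1).toNat + 4 * (x 2).toNat + 8 * (x 3).toNat + 16 * (x 4).toNat

/-- the large trap set -/
def inB (x : Fin 5 → Bool) : Prop := enc x ∈ [6, 7, 11, 14, 15, 18, 19, 21, 22, 23, 26, 27, 28, 29, 30]

instance : DecidablePred inB := fun _ => inferInstanceAs (Decidable (_ ∈ _))

instance (s : Bool) (j i : Fin 5) : Decidable (Arc F s j i) := inferInstanceAs (Decidable (∃ _, _))

/-- ranks -/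
def rk (i : Fin 5) (x : Fin 5 → Bool) : ℕ :=
  (([[0, 0, 0, 0, 0, 0, 0, 3, 0, 0, 0, 2, 0, 0, 0, 1, 0, 0, 0, 1, 0, 2, 0, 2, 0, 0, 0, 3, 0, 1, 0, 0],
   [0, 0, 0, 0, 0, 0, 3, 2, 0, 0, 0, 4, 0, 0, 4, 3, 0, 0, 7, 6, 0, 0, 2, 1, 0, 0, 6, 5, 0, 0, 3, 0],
   [0, 0, 0, 0, 0, 0, 2, 2, 0, 0, 0, 0, 0, 0, 2, 3, 0, 0, 0, 0, 0, 4, 1, 1, 0, 0, 0, 0, 2, 3, 1, 0],
   [0, 0, 0, 0, 0, 0, 0, 0, 0, 0, 0, 2, 0, 0, 1, 1, 0, 0, 0, 0, 0, 0, 0, 0, 0, 0, 4, 3, 2, 3, 1, 0],
   [0, 0, 0, 0, 0, 0, 0, 0, 0, 0, 0, 0, 0, 0, 0, 0, 0, 0, 3, 2, 0, 6, 4, 3, 0, 0, 2, 1, 4, 5, 3, 0]] : List (List ℕ)).getD i []).getD (enc x) 0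

/-- in-neighbours -/
def E (j i : Fin 5) : Bool := j ∈ (![[2, 3], [0, 2, 4], [1, 4], [1, 2], [0, 1, 3]] i : List (Fin 5))

theorem arcs : ∀ s j i, Arc F s j i → E j i = true := by decide +kernel

theorem sets : ∀ S T : Finset (Fin 5), S.Nonempty → T.Nonempty → (∀ a ∈ S, ∃ b ∈ S, E a b = true) →
    (∀ a ∈ T, ∃ b ∈ T, E a b = true) → ∃ a ∈ S, a ∈ T := by decide +kernel

theorem desc : ∀ i x, inB x → x i = false ∨ ∃ j, x j ≠ F x j ∧ inB (Function.update x j (!x j)) ∧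
    rk i (Function.update x j (!x j)) < rk i x := by decide +kernel

theorem trapB : ∀ x, inB x → ∀ i, x i ≠ F x i → inB (Function.update x i (!x i)) := by
  decide +kernel

theorem result : ∃ f : BN 5, NonSep f ∧ ∀ (m m' : ℕ) (v : Fin (m + 1) → Fin 5) s
    (v' : Fin (m' + 1) → Fin 5) s', Cyc f v s → Cyc f v' s' → ∃ t t', v t = v' t' := by
  refine ⟨F, ?_, fun m m' v s v' s' h h' => ?_⟩
  · obtain ⟨B, h1, h2⟩ := Finite.exists_le_minimal (p := fun X => X.Nonempty ∧ Trap F X)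
      (a := {x | inB x}) ⟨⟨![false, true, true, false, false], by decide⟩, trapB⟩
    refine ⟨{fun _ => false}, B, ⟨⟨by simp, ?_⟩, ?_⟩, h2, ?_, fun _ => false, ?_, ?_⟩
    · rintro x rfl
      decide
    · rintro X ⟨⟨x, hx⟩, -⟩ h y rfl
      exact h hx ▸ hx
    · intro e
      exact absurd (h1 (e ▸ rfl : (fun _ => false) ∈ B)) (by decide)
    · exact fun I c h => h _ rfl
    · intro I c h i hi
      obtain ⟨x, hx⟩ := h2.prop.1
      induction hr : rk i x using Nat.strong_induction_on generalizing x with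
      | _ r ih =>
        rcases desc i x (h1 hx) with e | ⟨j, a, -, b⟩
        · exact e.symm.trans (h x hx i hi)
        · exact ih _ (hr ▸ b) _ (h2.prop.2 x hx j a) rfl
  · have k : ∀ (m : ℕ) (v : Fin (m + 1) → Fin 5) s, Cyc F v s →
        ∀ a ∈ univ.image v, ∃ b ∈ univ.image v, E a b = true := fun m v s h a ha => by
      obtain ⟨t, -, rfl⟩ := mem_image.1 ha
      exact ⟨_, mem_image_of_mem _ (mem_univ _), arcs _ _ _ (h.2 t)⟩
    obtain ⟨a, h1, h2⟩ := sets _ _ (by simp) (by simp) (k _ v s h) (k _ v' s' h')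
    obtain ⟨t, -, rfl⟩ := mem_image.1 h1
    obtain ⟨t', -, e⟩ := mem_image.1 h2
    exact ⟨t, t', e.symm⟩

end Pool.Agent.Results.MP_8a6e71_co.Q1
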